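import Pool.Agent.Helper65.KPV.St

/-! # Project KP, chapter A part V, module INW: the valuation of an invariant prime is invariant -/

set_option autoImplicit false

namespace Pool.Agent.Helper64.KPV

open Pool.Agent.Helper65.KPV Pool.Agent.Helper5.KPA Pool.Agent.Helper52.KP

theorem hINW (hUNQ : StUNQ) : StINW := by
  intro S _ _ _ B τ ξ v σ hv hσ c hc hinv x hx hqx
  have hci : c⁻¹ ≠ 0 := inv_ne_zero hc
  have r1 : ∀ y, σ c (σ c⁻¹ y) = y := by
    intro y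
    rw [← hσ.mul c c⁻¹ y hc hci, mul_inv_cancel₀ hc, hσ.one]
  have r2 : ∀ y, σ c⁻¹ (σ c y) = y := by
    intro y
    rw [← hσ.mul c⁻¹ c y hci hc, inv_mul_cancel₀ hc, hσ.one]
  have memB : ∀ y, σ c y ∈ B ↔ y ∈ B := by
    intro y
    constructor
    · intro h
      have h1 := hσ.stab c⁻¹ hci _ h
      rwa [r2] at h1
    · exact hσ.stab c hc y
  have memB' : ∀ y, σ c⁻¹ y ∈ B ↔ y ∈ B := by
    intro y
    rw [← memB, r1]
  have ne1 : ∀ y, y ≠ 0 → σ c y ≠ 0 := by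
    intro y hy h
    apply hy
    rw [← r2 y, h, map_zero]
  have ne2 : ∀ y, y ≠ 0 → σ c⁻¹ y ≠ 0 := by
    intro y hy h
    apply hy
    rw [← r1 y, h, map_zero]
  have q1 : ∀ y, QB B y → QB B (σ c y) := by
    rintro y ⟨s, hs, hs0, hsy⟩
    refine ⟨σ c s, (memB s).2 hs, ne1 s hs0, ?_⟩
    rw [← map_mul]
    exact (memB _).2 hsy
  have q2 : ∀ y, QB B y → QB B (σ c⁻¹ y) := by
    rintro y ⟨s, hs, hs0, hsy⟩
    refine ⟨σ c⁻¹ s, (memB' s).2 hs, ne2 s hs0, ?_⟩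
    rw [← map_mul]
    exact (memB' _).2 hsy
  -- `s ξ' ∈ B` iff `σ c s ξ ∈ B`
  have key : ∀ s, s * σ c⁻¹ ξ ∈ B ↔ σ c s * ξ ∈ B := by
    intro s
    rw [← memB (s * σ c⁻¹ ξ), map_mul, r1]
  have hv' : PV B (σ c⁻¹ ξ) (fun y => v (σ c y)) := by
    refine ⟨⟨?_, ?_, ?_⟩, ?_, ?_, ?_, ?_, ?_, ?_, ?_⟩
    · rw [memB']
      exact hv.px.nB
    · exact q2 _ hv.px.qB
    · intro s hs t ht h
      rw [key, map_mul] at h
      rw [key, key]
      exact hv.px.prime _ ((memB s).2 hs) _ ((memB t).2 ht) h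
    · intro y z hy hz hqy hqz
      show v (σ c (y * z)) = v (σ c y) + v (σ c z)
      rw [map_mul]
      exact hv.mul _ _ (ne1 y hy) (ne1 z hz) (q1 y hqy) (q1 z hqz)
    · intro y z hy hz hyz hqy hqz
      show min (v (σ c y)) (v (σ c z)) ≤ v (σ c (y + z))
      have h1 := ne1 _ hyz
      rw [map_add] at h1 ⊢
      exact hv.add _ _ (ne1 y hy) (ne1 z hz) h1 (q1 y hqy) (q1 z hqz)
    · intro y hy hy0
      exact hv.nonneg _ ((memB y).2 hy) (ne1 y hy0)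
    · intro y hy hy0
      show 1 ≤ v (σ c y) ↔ _
      rw [key]
      exact hv.pos _ ((memB y).2 hy) (ne1 y hy0)
    · intro y hy hqy h0
      obtain ⟨h, hh, h1, h2⟩ := hv.loc _ (ne1 y hy) (q1 y hqy) h0
      refine ⟨σ c⁻¹ h, (memB' h).2 hh, ?_, ?_⟩
      · rw [← map_mul, memB']
        exact h1
      · rw [← memB, map_mul, r1]
        exact h2
    · show v (σ c (σ c⁻¹ ξ)) = -1
      rw [r1]
      exact hv.xi
    · obtain ⟨y, hy, hy0, hy1⟩ := hv.unif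
      refine ⟨σ c⁻¹ y, (memB' y).2 hy, ne2 y hy0, ?_⟩
      show v (σ c (σ c⁻¹ y)) = 1
      rw [r1]
      exact hy1
  have h := hUNQ S B ξ (σ c⁻¹ ξ) v (fun y => v (σ c y)) hv hv' (fun s hs => by
    rw [key]
    exact hinv s hs) x hx hqx
  exact h.symm

end Pool.Agent.Helper64.KPV
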